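import Mathlib
import Pool.Agent.R104.Quiddity

set_option autoImplicit false

/-!
# Finiteness of the irreducible solutions of `(E_N)`

The definitions (`T`, `M`, `IsSolution`, `osum`, `Equivalent`, `Reducible`, `IsIrreducible`) are in
`Pool.Agent.R104.Quiddity`.

Let `r_i` be the first row of `M (a_1, ..., a_i)`. If `r_i = ± r_k` for some `0 ≤ i < k ≤ n - 1` in a
solution of size `n ≥ 5`, then the block `a_{i+1}, ..., a_k` or the block `a_{i+2}, ..., a_{k-1}` has
corner entry `± 1` and the solution is reducible. So the rows `r_0, ..., r_{n-1}` of an irreducible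
solution are nonzero and pairwise different, also up to sign.
-/

namespace Pool.Agent.Results.MP_762e7e_co.Finiteness

open Pool.Agent.R104.Quiddity Matrix

section ring

variable {R : Type*} [CommRing R]

/-- the first row of `M l` -/
def row (l : List R) : R × R := (M l 0 0, M l 0 1)

/-- If the first row of `M b * A` is `ε` times the first row of `A`, `det A = 1`, then
the first row of `M b` is `(ε, 0)`. -/
theorem row_of_smul {A B : Matrix (Fin 2) (Fin 2) R} (hA : A.det = 1) {ε : R}
    (h0 : (B * A) 0 0 = ε * A 0 0) (h1 : (B * A) 0 1 = ε * A 0 1) :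
    B 0 0 = ε ∧ B 0 1 = 0 := by
  rw [Matrix.det_fin_two] at hA
  rw [Matrix.mul_apply, Fin.sum_univ_two] at h0 h1
  constructor
  · linear_combination (A 1 1) * h0 - (A 1 0) * h1 + (ε - B 0 0) * hA
  · linear_combination (-(A 0 1)) * h0 + (A 0 0) * h1 - (B 0 1) * hA

/-- A block `b` whose matrix has first row `(ε, 0)`, `ε = ± 1`: the inner block has corner `-ε`. -/
theorem inner_corner {x y : R} {u : List R} {ε : R} (h0 : M (x :: (u ++ [y])) 0 0 = ε)
    (h1 : M (x :: (u ++ [y])) 0 1 = 0) (hε : ε * ε = 1) : M u 0 0 = -ε := by
  have hdet := det_M (x :: (u ++ [y]))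
  rw [Matrix.det_fin_two, h0, h1] at hdet
  have h2 : M (x :: (u ++ [y])) 1 1 = - M u 0 0 := by
    rw [M, M_append, M_singleton, Matrix.mul_apply, Fin.sum_univ_two, Matrix.mul_apply,
      Fin.sum_univ_two, Matrix.mul_apply, Fin.sum_univ_two]
    simp [T]
  rw [h2] at hdet
  linear_combination (-ε) * hdet + (-(M u 0 0)) * hε

/-- In an irreducible solution of size at least five the rows are pairwise different up to sign. -/
theorem rows_ne {c : List R} (hc : IsIrreducible c) (h5 : 5 ≤ c.length) {i k : ℕ} (hik : i < k)
    (hk : k < c.length) {ε : R} (hε : ε = 1 ∨ ε = -1)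
    (h0 : M (c.take k) 0 0 = ε * M (c.take i) 0 0) (h1 : M (c.take k) 0 1 = ε * M (c.take i) 0 1) :
    False := by
  obtain ⟨hsol, -, hirr⟩ := hc
  apply hirr
  have hε2 : ε * ε = 1 := by rcases hε with h | h <;> rw [h] <;> ring
  -- the block `b`
  set b := (c.take k).drop i with hb
  have hbl : b.length = k - i := by
    rw [hb, List.length_drop, List.length_take, min_eq_left hk.le]
  have e1 : c.take k = c.take i ++ b := by
    have := List.take_append_drop i (c.take k)
    rw [List.take_take, min_eq_left hik.le] at this
    exact this.symm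
  have e2 : c = c.take i ++ (b ++ c.drop k) := by
    rw [← List.append_assoc, ← e1, List.take_append_drop]
  rw [e1, M_append] at h0 h1
  obtain ⟨b0, b1⟩ := row_of_smul (det_M (c.take i)) h0 h1
  have hil : (c.take i).length = i := by
    rw [List.length_take, min_eq_left (by omega)]
  have hdl : (c.drop k).length = c.length - k := List.length_drop
  by_cases hlen : k - i ≤ c.length - 3
  · -- the block itself
    have hbne : b ≠ [] := by
      intro h
      rw [h, List.length_nil] at hbl
      omega
    rw [e2]
    rw [e2] at hsol
    refine reducible_of_block hbne (by rw [hil, hdl]; omega) hsol ?_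
    rw [b0]
    exact hε
  · -- the inner block
    obtain ⟨x, u, y, hxy, hu, hul⟩ := exists_rep (a := b) (by omega)
    rw [hxy] at b0 b1
    have hcorner := inner_corner b0 b1 hε2
    have e3 : c = (c.take i ++ [x]) ++ (u ++ (y :: c.drop k)) := by
      conv_lhs => rw [e2, hxy]
      simp
    rw [e3]
    rw [e3] at hsol
    refine reducible_of_block hu ?_ hsol ?_
    · simp only [List.length_append, List.length_cons, List.length_nil]
      rw [hil, hdl]
      omega
    · rw [hcorner]
      rcases hε with h | h
      · right; rw [h]
      · left; rw [h, neg_neg]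

theorem row_ne_zero [Nontrivial R] (l : List R) : ¬ (M l 0 0 = 0 ∧ M l 0 1 = 0) := by
  rintro ⟨h0, h1⟩
  have := det_M l
  rw [Matrix.det_fin_two, h0, h1] at this
  simp at this

end ring

/-- The bound for the size: `2 n ≤ N ^ 2 - 1` for an irreducible solution of size `n ≥ 5`. -/
theorem two_mul_le {N : ℕ} (hN : 2 ≤ N) {c : List (ZMod N)} (hc : IsIrreducible c)
    (h5 : 5 ≤ c.length) : 2 * c.length ≤ N ^ 2 - 1 := by
  classical
  have : Fact (1 < N) := ⟨hN⟩
  have : NeZero N := ⟨by omega⟩
  set n := c.length with hn
  -- vectors
  let f : Fin n × Bool → ZMod N × ZMod N := fun p =>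
    if p.2 then (M (c.take p.1) 0 0, M (c.take p.1) 0 1)
    else (-M (c.take p.1) 0 0, -M (c.take p.1) 0 1)
  by_cases hN2 : N = 2
  · -- already the rows give a contradiction
    exfalso
    subst hN2
    let g : Fin n → ZMod 2 × ZMod 2 := fun p => (M (c.take p) 0 0, M (c.take p) 0 1)
    have hg : Function.Injective g := by
      intro i k hik
      simp only [g, Prod.mk.injEq] at hik
      rcases lt_trichotomy i k with h | h | h
      · exact (rows_ne hc h5 (i := i) (k := k) h k.2 (Or.inl rfl) (by rw [one_mul]; exact hik.1.symm)
          (by rw [one_mul]; exact hik.2.symm)).elim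
      · exact h
      · exact (rows_ne hc h5 (i := k) (k := i) h i.2 (Or.inl rfl) (by rw [one_mul]; exact hik.1)
          (by rw [one_mul]; exact hik.2)).elim
    have := Fintype.card_le_of_injective g hg
    rw [Fintype.card_fin, Fintype.card_prod, ZMod.card] at this
    omega
  · have hf : Function.Injective f := by
      have key : ∀ (i k : Fin n), i < k → ∀ s t : Bool, f (i, s) ≠ f (k, t) := by
        intro i k hik s t h
        have hlt : (i : ℕ) < (k : ℕ) := hik
        cases s <;> cases t
        · simp only [f, Prod.mk.injEq, neg_inj, Bool.false_eq_true, if_false] at h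
          exact rows_ne hc h5 hlt k.2 (Or.inl rfl) (by rw [one_mul]; exact h.1.symm)
            (by rw [one_mul]; exact h.2.symm)
        · simp only [f, Prod.mk.injEq, Bool.false_eq_true, if_false, if_true] at h
          exact rows_ne hc h5 hlt k.2 (Or.inr rfl) (by rw [neg_one_mul]; exact h.1.symm)
            (by rw [neg_one_mul]; exact h.2.symm)
        · simp only [f, Prod.mk.injEq, Bool.false_eq_true, if_false, if_true] at h
          exact rows_ne hc h5 hlt k.2 (Or.inr rfl)
            (by rw [neg_one_mul, h.1, neg_neg])
            (by rw [neg_one_mul, h.2, neg_neg])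
        · simp only [f, Prod.mk.injEq, if_true] at h
          exact rows_ne hc h5 hlt k.2 (Or.inl rfl) (by rw [one_mul]; exact h.1.symm)
            (by rw [one_mul]; exact h.2.symm)
      have same : ∀ (i : Fin n), f (i, true) ≠ f (i, false) := by
        intro i h
        simp only [f, Prod.mk.injEq, Bool.false_eq_true, if_false, if_true] at h
        -- `2 r = 0`, hence `2 = 0`
        have hdet := det_M (c.take (i : ℕ))
        rw [Matrix.det_fin_two] at hdet
        have h2 : (2 : ZMod N) = 0 := by
          have a0 : 2 * M (c.take (i : ℕ)) 0 0 = 0 := by linear_combination h.1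
          have a1 : 2 * M (c.take (i : ℕ)) 0 1 = 0 := by linear_combination h.2
          linear_combination (-2) * hdet + (M (c.take (i : ℕ)) 1 1) * a0 -
            (M (c.take (i : ℕ)) 1 0) * a1
        have h3 : ((2 : ℕ) : ZMod N) = 0 := by exact_mod_cast h2
        rw [ZMod.natCast_eq_zero_iff] at h3
        have := Nat.le_of_dvd (by norm_num) h3
        omega
      rintro ⟨i, s⟩ ⟨k, t⟩ h
      rcases lt_trichotomy i k with h1 | h1 | h1
      · exact (key i k h1 s t h).elim
      · subst h1
        cases s <;> cases t
        · rfl
        · exact (same i h.symm).elim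
        · exact (same i h).elim
        · rfl
      · exact (key k i h1 t s h.symm).elim
    have hne : ∀ p, f p ≠ 0 := by
      rintro ⟨i, s⟩ h
      cases s
      · simp only [f, Bool.false_eq_true, if_false] at h
        have h' := Prod.ext_iff.1 h
        exact row_ne_zero (c.take (i : ℕ)) ⟨neg_eq_zero.1 h'.1, neg_eq_zero.1 h'.2⟩
      · simp only [f, if_true] at h
        have h' := Prod.ext_iff.1 h
        exact row_ne_zero (c.take (i : ℕ)) h'
    have hle : (Finset.univ.image f).card ≤ (Finset.univ.erase (0 : ZMod N × ZMod N)).card := by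
      apply Finset.card_le_card
      intro v hv
      rw [Finset.mem_image] at hv
      obtain ⟨p, -, rfl⟩ := hv
      exact Finset.mem_erase.2 ⟨hne p, Finset.mem_univ _⟩
    rw [Finset.card_image_of_injective _ hf, Finset.card_erase_of_mem (Finset.mem_univ _),
      Finset.card_univ, Finset.card_univ, Fintype.card_prod, Fintype.card_prod, Fintype.card_fin,
      Fintype.card_bool, ZMod.card] at hle
    rw [pow_two]
    omega

/-- **Main theorem.** For every integer `N ≥ 2` the equation `(E_N)` has only finitely many
irreducible solutions. More precisely, every irreducible solution of `(E_N)` has size at most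
`max (4, (N ^ 2 - 1) / 2)`. -/
theorem result : ∀ N : ℕ, 2 ≤ N →
    {c : List (ZMod N) | IsIrreducible c}.Finite ∧
    ∀ c : List (ZMod N), IsIrreducible c → c.length ≤ max 4 ((N ^ 2 - 1) / 2) := by
  intro N hN
  have : NeZero N := ⟨by omega⟩
  have key : ∀ c : List (ZMod N), IsIrreducible c → c.length ≤ max 4 ((N ^ 2 - 1) / 2) := by
    intro c hc
    by_cases h5 : 5 ≤ c.length
    · have := two_mul_le hN hc h5
      exact le_max_of_le_right (by omega)
    · exact le_max_of_le_left (by omega)
  exact ⟨(List.finite_length_le (ZMod N) (max 4 ((N ^ 2 - 1) / 2))).subset fun c hc => key c hc, key⟩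

end Pool.Agent.Results.MP_762e7e_co.Finiteness
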